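import Pool.Agent.Work.MP_4eca41_an.Defs
import Pool.Agent.Work.MP_4eca41_an.T.T2

/-!
# Legendre 1: elementary facts on the partial Legendre transforms `PL`, `PU`  (paper B1)

`Low F`: `c sq z - C ≤ F z` with `c > 0` (superlinear in `x` for fixed `t`).

PROOFS.  `x ↦ F (x,t) - p x` is continuous and tends to `+∞` at both ends (`≥ c x^2 - |p||x| - C`): the infimum is attained and the set of values is bounded below.
`pl_conc`: infimum of affine functions of `p`.  `pl_conv`: for `(x0,t0), (x1,t1)` attaining the infima at `(p,t0)`, `(p,t1)` use joint convexity at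
`(1-θ)(x0,t0) + θ (x1,t1)`.  `pl_gr`: `inf_x (c x^2 - p x) = -p^2/(4c)` and `inf_x (C x^2 - p x) = -p^2/(4C)`.  `pl_continuous`: `t2_continuous` with `C = 0`
(concave in `p`, convex in `t`, locally bounded by `pl_gr`).  `pu_pl`: `≤`: `PL f (p,t) + p x ≤ f (x,t)`.  `≥`: take a subgradient `p` of the convex function `f (·, t)` at `x`:
`f (x',t) - p x' ≥ f (x,t) - p x` for all `x'`, so `PL f (p,t) + p x = f (x,t)`.  `pu_attained`: `p ↦ q (p,t) + p x` is continuous and `≤ C(1+t^2) - c p^2 + p x`.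
`pu_conv`: for every `p` the function `(x,t) ↦ q (p,t) + p x` is jointly convex; supremum (finite by `pu_bdd`).  `le_pl_pu`: `q (p,t) + p x - p x ≤ PU q (x,t) - p x` for all `x`.
`pu_lower`: `q (p,t) ≥ c t^2 - C (1+p^2)` with `C > 0`; take `p = x/(2C)`: `PU q ≥ c t^2 - C + x^2/(4C)`.
`pu_le_add`: if `q ≤ q' + η` pointwise then `PU q ≤ PU q' + η`.
-/

set_option autoImplicit false

open Set MeasureTheory

namespace Pool.Agent.MP_4eca41

/-- Quadratic lower bound. -/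
def Low (F : ℝ × ℝ → ℝ) : Prop := ∃ c C : ℝ, 0 < c ∧ ∀ z, c * sq z - C ≤ F z

theorem low_of_gr (F : ℝ × ℝ → ℝ) (h : Gr F) : Low F := by
  obtain ⟨c, C, hc, h⟩ := h
  exact ⟨c, C, hc, fun z => (h z).1⟩

theorem continuous_of_convex (f : ℝ × ℝ → ℝ) (hf : ConvexOn ℝ univ f) : Continuous f := by
  rw [← continuousOn_univ]
  exact hf.continuousOn isOpen_univ

private theorem quad_low (c : ℝ) (hc : 0 < c) (p x : ℝ) : -(p ^ 2 / (4 * c)) ≤ c * x ^ 2 - p * x := by
  have h : c * x ^ 2 - p * x + p ^ 2 / (4 * c) = c * (x - p / (2 * c)) ^ 2 := by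
    field_simp
    ring
  nlinarith [mul_nonneg hc.le (sq_nonneg (x - p / (2 * c)))]

private theorem pl_bdd (F : ℝ × ℝ → ℝ) (hF : Low F) (y : ℝ × ℝ) :
    BddBelow (range fun x : ℝ => F (x, y.2) - y.1 * x) := by
  obtain ⟨c, C, hc, h⟩ := hF
  refine ⟨-(y.1 ^ 2 / (4 * c)) - C, ?_⟩
  rintro _ ⟨x, rfl⟩
  have h1 := h (x, y.2)
  have h2 := quad_low c hc y.1 x
  have h3 : 0 ≤ c * y.2 ^ 2 := by positivity
  simp only [sq] at h1
  simp only
  nlinarith

theorem pl_le (F : ℝ × ℝ → ℝ) (hF : Low F) (y : ℝ × ℝ) (x : ℝ) :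
    PL F y ≤ F (x, y.2) - y.1 * x := by
  unfold PL
  exact ciInf_le (pl_bdd F hF y) x

theorem le_pl (F : ℝ × ℝ → ℝ) (y : ℝ × ℝ) (m : ℝ) (h : ∀ x, m ≤ F (x, y.2) - y.1 * x) :
    m ≤ PL F y := by
  unfold PL
  exact le_ciInf h

theorem pl_attained (F : ℝ × ℝ → ℝ) (hc : Continuous F) (hF : Low F) (y : ℝ × ℝ) :
    ∃ x, PL F y = F (x, y.2) - y.1 * x := by
  have hg : Continuous fun x : ℝ => F (x, y.2) - y.1 * x := by fun_prop
  have hlim : Filter.Tendsto (fun x : ℝ => F (x, y.2) - y.1 * x) (Filter.cocompact ℝ)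
      Filter.atTop := by
    obtain ⟨c, C, hc, h⟩ := hF
    have h1 : Filter.Tendsto (fun x : ℝ => c / 2 * ‖x‖ ^ 2 + (-(y.1 ^ 2 / (4 * (c / 2))) - C))
        (Filter.cocompact ℝ) Filter.atTop := by
      refine Filter.tendsto_atTop_add_const_right _ _ ?_
      refine Filter.Tendsto.const_mul_atTop (by positivity) ?_
      exact (Filter.tendsto_pow_atTop two_ne_zero).comp (tendsto_norm_cocompact_atTop (E := ℝ))
    refine Filter.tendsto_atTop_mono (fun x => ?_) h1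
    have h2 := h (x, y.2)
    have h3 := quad_low (c / 2) (by positivity) y.1 x
    have h4 : 0 ≤ c * y.2 ^ 2 := by positivity
    simp only [sq] at h2
    rw [Real.norm_eq_abs, sq_abs]
    nlinarith
  obtain ⟨x, hx⟩ := hg.exists_forall_le hlim
  exact ⟨x, le_antisymm (pl_le F hF y x) (le_pl F y _ hx)⟩

theorem pl_mono (F F' : ℝ × ℝ → ℝ) (hF : Low F) (h : ∀ z, F z ≤ F' z) (y : ℝ × ℝ) :
    PL F y ≤ PL F' y := by
  refine le_pl F' y _ (fun x => ?_)
  have h1 := pl_le F hF y x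
  have h2 := h (x, y.2)
  linarith

theorem pl_conc (F : ℝ × ℝ → ℝ) (hF : Low F) (t : ℝ) : ConcaveOn ℝ univ fun p => PL F (p, t) := by
  refine ⟨convex_univ, ?_⟩
  intro p _ p' _ a b ha hb hab
  refine le_pl F _ _ (fun x => ?_)
  have h1 := pl_le F hF (p, t) x
  have h2 := pl_le F hF (p', t) x
  simp only [smul_eq_mul] at h1 h2 ⊢
  have hb' : b = 1 - a := by linarith
  subst hb'
  nlinarith [mul_le_mul_of_nonneg_left h1 ha, mul_le_mul_of_nonneg_left h2 hb]

theorem pl_conv (f : ℝ × ℝ → ℝ) (hf : ConvexOn ℝ univ f) (hF : Low f) (p : ℝ) :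
    ConvexOn ℝ univ fun t => PL f (p, t) := by
  refine ⟨convex_univ, ?_⟩
  intro t _ t' _ a b ha hb hab
  obtain ⟨x, hx⟩ := pl_attained f (continuous_of_convex f hf) hF (p, t)
  obtain ⟨x', hx'⟩ := pl_attained f (continuous_of_convex f hf) hF (p, t')
  have h1 := pl_le f hF (p, a • t + b • t') (a • x + b • x')
  have h2 := hf.2 (mem_univ (x, t)) (mem_univ (x', t')) ha hb hab
  have e : a • (x, t) + b • (x', t') = (a • x + b • x', a • t + b • t') := rfl
  rw [e] at h2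
  simp only at hx hx' h1 ⊢
  rw [hx, hx']
  simp only [smul_eq_mul] at h1 h2 ⊢
  nlinarith

private theorem pl_upper_aux (F : ℝ × ℝ → ℝ) (hF : Low F) (C : ℝ) (hC : 0 < C)
    (h : ∀ z, F z ≤ C * (1 + sq z)) (y : ℝ × ℝ) :
    PL F y ≤ C * (1 + y.2 ^ 2) - y.1 ^ 2 / (4 * C) := by
  have h1 := pl_le F hF y (y.1 / (2 * C))
  have h2 := h (y.1 / (2 * C), y.2)
  simp only [sq] at h2
  have e : C * (1 + ((y.1 / (2 * C)) ^ 2 + y.2 ^ 2)) - y.1 * (y.1 / (2 * C))
      = C * (1 + y.2 ^ 2) - y.1 ^ 2 / (4 * C) := by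
    field_simp
    ring
  linarith

theorem pl_gr (F : ℝ × ℝ → ℝ) (hF : Gr F) : GrW (PL F) := by
  have hL := low_of_gr F hF
  obtain ⟨c, C, hc, h⟩ := hF
  set C1 : ℝ := max C c with hC1
  have hC1pos : 0 < C1 := lt_of_lt_of_le hc (le_max_right _ _)
  have hCC : C ≤ C1 := le_max_left _ _
  have hup : ∀ z, F z ≤ C1 * (1 + sq z) := by
    intro z
    have h1 := (h z).2
    have h2 : 0 ≤ sq z := by unfold sq; positivity
    nlinarith
  refine ⟨min c (1 / (4 * C1)), C1 + 1 / (4 * c), by positivity, ?_⟩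
  intro y
  have hm1 : min c (1 / (4 * C1)) ≤ c := min_le_left _ _
  have hm2 : min c (1 / (4 * C1)) ≤ 1 / (4 * C1) := min_le_right _ _
  have hy1 := sq_nonneg y.1
  have hy2 := sq_nonneg y.2
  have hi : 0 < 1 / (4 * c) := by positivity
  constructor
  · refine le_pl F y _ (fun x => ?_)
    have h1 := (h (x, y.2)).1
    have h2 := quad_low c hc y.1 x
    simp only [sq] at h1
    have e : y.1 ^ 2 / (4 * c) = 1 / (4 * c) * y.1 ^ 2 := by ring
    rw [e] at h2
    nlinarith [mul_le_mul_of_nonneg_right hm1 hy2, mul_nonneg hC1pos.le hy1]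
  · have h1 := pl_upper_aux F hL C1 hC1pos hup y
    have e : y.1 ^ 2 / (4 * C1) = 1 / (4 * C1) * y.1 ^ 2 := by ring
    rw [e] at h1
    nlinarith [mul_le_mul_of_nonneg_right hm2 hy1, mul_nonneg hi.le hy2]

/-- Upper growth of `PL F` from the upper growth of `F` alone. -/
theorem pl_upper (F : ℝ × ℝ → ℝ) (hF : Low F) (C : ℝ) (hC : 0 < C) (h : ∀ z, F z ≤ C * (1 + sq z))
    (y : ℝ × ℝ) : PL F y ≤ C * (1 + y.2 ^ 2) - y.1 ^ 2 / (4 * C) :=
  pl_upper_aux F hF C hC h y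

theorem pl_continuous (f : ℝ × ℝ → ℝ) (hf : ConvexOn ℝ univ f) (hg : Gr f) : Continuous (PL f) := by
  have hL := low_of_gr f hg
  refine t2_continuous 0 le_rfl (PL f) ?_ ?_ ?_
  · intro t
    right
    have := pl_conc f hL t
    simpa using this
  · intro p
    left
    have := pl_conv f hf hL p
    simpa using this
  · intro R
    obtain ⟨c, C, hc, h⟩ := pl_gr f hg
    refine ⟨|C| * (1 + R ^ 2) + c * R ^ 2, ?_⟩
    intro y h1 h2
    have h3 := h y
    have e1 : y.1 ^ 2 ≤ R ^ 2 := by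
      rw [← sq_abs y.1]
      exact pow_le_pow_left₀ (abs_nonneg _) h1 2
    have e2 : y.2 ^ 2 ≤ R ^ 2 := by
      rw [← sq_abs y.2]
      exact pow_le_pow_left₀ (abs_nonneg _) h2 2
    have e3 := le_abs_self C
    have e4 := abs_nonneg C
    have f1 := sq_nonneg y.1
    have f2 := sq_nonneg y.2
    have k1 : C * (1 + y.1 ^ 2) ≤ |C| * (1 + R ^ 2) := by
      calc C * (1 + y.1 ^ 2) ≤ |C| * (1 + y.1 ^ 2) := by
            exact mul_le_mul_of_nonneg_right e3 (by positivity)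
        _ ≤ |C| * (1 + R ^ 2) := mul_le_mul_of_nonneg_left (by linarith) e4
    have k2 : C * (1 + y.2 ^ 2) ≤ |C| * (1 + R ^ 2) := by
      calc C * (1 + y.2 ^ 2) ≤ |C| * (1 + y.2 ^ 2) := by
            exact mul_le_mul_of_nonneg_right e3 (by positivity)
        _ ≤ |C| * (1 + R ^ 2) := mul_le_mul_of_nonneg_left (by linarith) e4
    have k3 : 0 ≤ c * R ^ 2 := by positivity
    have k4 : 0 ≤ c * y.1 ^ 2 := by positivity
    have k5 : 0 ≤ c * y.2 ^ 2 := by positivity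
    rw [abs_le]
    constructor <;> linarith [h3.1, h3.2]

private theorem le_pu_bdd (q : ℝ × ℝ → ℝ) (hq : GrW q) (z : ℝ × ℝ) :
    BddAbove (range fun p : ℝ => q (p, z.2) + p * z.1) := by
  obtain ⟨c, C, hc, h⟩ := hq
  refine ⟨C * (1 + z.2 ^ 2) + z.1 ^ 2 / (4 * c), ?_⟩
  rintro _ ⟨p, rfl⟩
  have h1 := (h (p, z.2)).2
  have h2 := quad_low c hc z.1 p
  simp only at h1 ⊢
  nlinarith

theorem pu_le (q : ℝ × ℝ → ℝ) (z : ℝ × ℝ) (m : ℝ) (h : ∀ p, q (p, z.2) + p * z.1 ≤ m) :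
    PU q z ≤ m := by
  unfold PU
  exact ciSup_le h

theorem le_pu (q : ℝ × ℝ → ℝ) (hq : GrW q) (p : ℝ) (z : ℝ × ℝ) :
    q (p, z.2) + p * z.1 ≤ PU q z := by
  unfold PU
  exact le_ciSup (f := fun p : ℝ => q (p, z.2) + p * z.1) (le_pu_bdd q hq z) p

theorem pu_pl_le (F : ℝ × ℝ → ℝ) (hF : Low F) (z : ℝ × ℝ) : PU (PL F) z ≤ F z := by
  refine pu_le _ z _ (fun p => ?_)
  have h1 := pl_le F hF (p, z.2) z.1
  simp only at h1
  linarith

theorem pu_pl (f : ℝ × ℝ → ℝ) (hf : ConvexOn ℝ univ f) (hg : Gr f) (z : ℝ × ℝ) :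
    PU (PL f) z = f z := by
  refine le_antisymm (pu_pl_le f (low_of_gr f hg) z) ?_
  have hG := pl_gr f hg
  have hcv : ConvexOn ℝ univ fun x : ℝ => f (x, z.2) := by
    refine ⟨convex_univ, ?_⟩
    intro x _ x' _ a b ha hb hab
    have h2 := hf.2 (mem_univ (x, z.2)) (mem_univ (x', z.2)) ha hb hab
    have e : a • (x, z.2) + b • (x', z.2) = (a • x + b • x', z.2) := by
      ext
      · simp
      · simp only [Prod.snd_add, Prod.smul_snd, smul_eq_mul]
        rw [← add_mul, hab, one_mul]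
    rw [e] at h2
    exact h2
  have hct : Continuous fun x : ℝ => f (x, z.2) :=
    (continuous_of_convex f hf).comp (by fun_prop)
  refine le_of_forall_lt (fun a ha => ?_)
  obtain ⟨a', ha1, ha2⟩ := exists_between ha
  obtain ⟨p, c', h1, h2⟩ := hcv.exists_affine_le_of_lt_real (x := z.1) (a := a') (mem_univ _)
    (by simpa using ha2) isClosed_univ (hct.lowerSemicontinuous.lowerSemicontinuousOn _)
  have h3 : c' ≤ PL f (p, z.2) := by
    refine le_pl f _ _ (fun x => ?_)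
    have := h1 x (mem_univ _)
    simp only at this ⊢
    linarith
  have h4 := le_pu (PL f) hG p z
  linarith

theorem pu_attained (q : ℝ × ℝ → ℝ) (hc : Continuous q) (hq : GrW q) (z : ℝ × ℝ) :
    ∃ p, PU q z = q (p, z.2) + p * z.1 := by
  have hg : Continuous fun p : ℝ => -(q (p, z.2) + p * z.1) := by fun_prop
  have hlim : Filter.Tendsto (fun p : ℝ => -(q (p, z.2) + p * z.1)) (Filter.cocompact ℝ)
      Filter.atTop := by
    obtain ⟨c, C, hc, h⟩ := hq
    have h1 : Filter.Tendsto (fun x : ℝ => c / 2 * ‖x‖ ^ 2 +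
        (-(z.1 ^ 2 / (4 * (c / 2))) - C * (1 + z.2 ^ 2))) (Filter.cocompact ℝ) Filter.atTop := by
      refine Filter.tendsto_atTop_add_const_right _ _ ?_
      refine Filter.Tendsto.const_mul_atTop (by positivity) ?_
      exact (Filter.tendsto_pow_atTop two_ne_zero).comp (tendsto_norm_cocompact_atTop (E := ℝ))
    refine Filter.tendsto_atTop_mono (fun p => ?_) h1
    have h2 := (h (p, z.2)).2
    have h3 := quad_low (c / 2) (by positivity) z.1 p
    simp only at h2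
    rw [Real.norm_eq_abs, sq_abs]
    nlinarith
  obtain ⟨p, hp⟩ := hg.exists_forall_le hlim
  refine ⟨p, le_antisymm (pu_le q z _ (fun p' => ?_)) (le_pu q hq p z)⟩
  have := hp p'
  linarith

theorem pu_le_add (q q' : ℝ × ℝ → ℝ) (hq' : GrW q') (η : ℝ) (h : ∀ y, q y ≤ q' y + η)
    (z : ℝ × ℝ) : PU q z ≤ PU q' z + η := by
  refine pu_le q z _ (fun p => ?_)
  have h1 := le_pu q' hq' p z
  have h2 := h (p, z.2)
  linarith

theorem pu_conv (q : ℝ × ℝ → ℝ) (hq : GrW q) (hc : ∀ p, ConvexOn ℝ univ fun t => q (p, t)) :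
    ConvexOn ℝ univ (PU q) := by
  refine ⟨convex_univ, ?_⟩
  intro z _ z' _ a b ha hb hab
  refine pu_le q _ _ (fun p => ?_)
  have h1 := le_pu q hq p z
  have h2 := le_pu q hq p z'
  have h3 := (hc p).2 (mem_univ z.2) (mem_univ z'.2) ha hb hab
  simp only [Prod.snd_add, Prod.smul_snd, Prod.fst_add, Prod.smul_fst, smul_eq_mul] at h3 ⊢
  nlinarith [mul_le_mul_of_nonneg_left h1 ha, mul_le_mul_of_nonneg_left h2 hb]

theorem le_pl_pu (q : ℝ × ℝ → ℝ) (hq : GrW q) (y : ℝ × ℝ) : q y ≤ PL (PU q) y := by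
  refine le_pl _ y _ (fun x => ?_)
  have h1 := le_pu q hq y.1 (x, y.2)
  simp only at h1
  linarith

theorem pu_lower (q : ℝ × ℝ → ℝ) (hq : GrW q) : Low (PU q) := by
  have hq' := hq
  obtain ⟨c, C, hc, h⟩ := hq
  set C1 : ℝ := max C 1 with hC1
  have hC1pos : 0 < C1 := lt_of_lt_of_le one_pos (le_max_right _ _)
  have hCC : C ≤ C1 := le_max_left _ _
  refine ⟨min c (1 / (4 * C1)), C1, by positivity, ?_⟩
  intro z
  have hm1 : min c (1 / (4 * C1)) ≤ c := min_le_left _ _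
  have hm2 : min c (1 / (4 * C1)) ≤ 1 / (4 * C1) := min_le_right _ _
  have hz1 := sq_nonneg z.1
  have hz2 := sq_nonneg z.2
  have h1 := le_pu q hq' (z.1 / (2 * C1)) z
  have h2 := (h (z.1 / (2 * C1), z.2)).1
  simp only at h2
  have h3 : C * (1 + (z.1 / (2 * C1)) ^ 2) ≤ C1 * (1 + (z.1 / (2 * C1)) ^ 2) :=
    mul_le_mul_of_nonneg_right hCC (by positivity)
  have e : -(C1 * (1 + (z.1 / (2 * C1)) ^ 2)) + z.1 / (2 * C1) * z.1
      = -C1 + 1 / (4 * C1) * z.1 ^ 2 := by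
    field_simp
    ring
  unfold sq
  nlinarith [mul_le_mul_of_nonneg_right hm1 hz2, mul_le_mul_of_nonneg_right hm2 hz1]

end Pool.Agent.MP_4eca41
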