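import Pool.Agent.Work.MP_4eca41_an.L.Leg1

/-!
# Legendre 2: transfer of second order expansions  (paper B2)

PROOF of `exp_pl_at`.  `x0 = z.1`, `t0 = z.2`.  Unique minimizer: `ξ ↦ f (x0+ξ, t0) - p (x0+ξ)` is convex and `= f z - p x0 + a ξ^2/2 + o(ξ^2)`, so it is `> f z - p x0` for
small `ξ ≠ 0`, hence for all `ξ ≠ 0` by convexity; so `PL f (p, t0) = f z - p x0`.
Expansion: `v = (h, τ)`, `ψ ξ = f (x0+ξ, t0+τ) - (p+h)(x0+ξ)` (convex in `ξ`), `Q ξ = f z - p x0 + s τ - h x0 - h ξ + (a ξ^2 + 2 b ξ τ + c τ^2)/2`, `|ψ ξ - Q ξ| ≤ ε (ξ^2 + τ^2)` if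
`ξ^2 + τ^2 ≤ δ^2`.  `min Q = Q ξ*`, `ξ* = (h - b τ)/a`, `Q ξ* = f z - p x0 - x0 h + s τ - (h - bτ)^2/(2a) + c τ^2/2`
` = PL f (p,t0) + (-x0) h + s τ + ((-1/a) h^2 + 2 (b/a) h τ + (c - b^2/a) τ^2)/2`.  `|ξ*| ≤ K |v|`.
Upper bound: `PL f (p+h, t0+τ) ≤ ψ ξ* ≤ Q ξ* + ε (K^2+1) sq v`.  Lower bound: put `R = |v|` (`R^2 = sq v`; if `R = 0` trivial).  For `|ξ - ξ*| = R`:
`ψ ξ ≥ Q ξ - ε(ξ^2+τ^2) = Q ξ* + a R^2/2 - ε (ξ^2+τ^2) > Q ξ* + ε (ξ*^2 + τ^2) ≥ ψ ξ*` when `ε` is small against `a/(K+2)^2`; by convexity `ψ ≥ ψ(ξ*)`... the minimum of `ψ` over the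
line is attained in `|ξ-ξ*| ≤ R`, and there `ψ ξ ≥ Q ξ - ε (ξ^2+τ^2) ≥ Q ξ* - ε ((K+1)^2+1) R^2`.
(For a given target error choose `ε` small first; `ExpAt` for larger `ε` follows.)
`exp_pl_unif`: all constants are uniform on `K` (`a ≥ a0 > 0`, `|b|, |c|, |x0|` bounded).  `Phi J` is injective on `K`: if `(p, t)` is the common image of `(x,t)` and `(x',t)`, both are the
unique minimizer.  `Phi J : K → Phi J '' K` is a continuous bijection of compact Hausdorff spaces, so its inverse is continuous and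
`JW.p = -(inverse).1`, `JW.s = J.s ∘ inverse`, ... (extended by `0` outside the image) are continuous on `Phi J '' K`.
-/

set_option autoImplicit false

open Set MeasureTheory

namespace Pool.Agent.MP_4eca41

private theorem le_of_small {X C δ : ℝ} (hδ : 0 < δ) (h : ∀ t, 0 < t → t ≤ δ → X ≤ C * t) :
    X ≤ 0 := by
  by_contra hne
  have hX : 0 < X := not_le.1 hne
  obtain ⟨t, ht⟩ : ∃ t : ℝ, t = min δ (X / (2 * (|C| + 1))) := ⟨_, rfl⟩
  have ht0 : 0 < t := by rw [ht]; exact lt_min hδ (by positivity)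
  have h1 := h t ht0 (by rw [ht]; exact min_le_left _ _)
  have h2 : t * (2 * (|C| + 1)) ≤ X := by
    rw [← le_div_iff₀ (by positivity), ht]
    exact min_le_right _ _
  have h3 : C * t ≤ |C| * t := mul_le_mul_of_nonneg_right (le_abs_self C) ht0.le
  have h4 : 0 ≤ |C| * t := by positivity
  nlinarith

private theorem sq_nn (v : ℝ × ℝ) : 0 ≤ sq v := by
  unfold sq
  positivity

private theorem sq_sm (t : ℝ) (u : ℝ × ℝ) : sq (t • u) = t ^ 2 * sq u := by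
  simp only [sq, Prod.smul_fst, Prod.smul_snd, smul_eq_mul]
  ring

private theorem exp_dir {f : ℝ × ℝ → ℝ} {z : ℝ × ℝ} {p s a b c : ℝ}
    (h : ExpAt f z p s a b c) (u : ℝ × ℝ) :
    ∃ C δ : ℝ, 0 < δ ∧ ∀ t, 0 < t → t ≤ δ →
      |f (z + t • u) - f z - t * (p * u.1 + s * u.2)| ≤ C * t ^ 2 := by
  obtain ⟨δ, hδ, h1⟩ := h 1 one_pos
  have hu := sq_nn u
  refine ⟨|(a * u.1 ^ 2 + 2 * b * u.1 * u.2 + c * u.2 ^ 2) / 2| + sq u, δ / (sq u + 1),
    by positivity, fun t ht htδ => ?_⟩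
  have h2 : sq (t • u) ≤ δ ^ 2 := by
    rw [sq_sm]
    have h3 : t * (sq u + 1) ≤ δ := by rwa [le_div_iff₀ (by positivity)] at htδ
    have h4 : (t * (sq u + 1)) ^ 2 ≤ δ ^ 2 := pow_le_pow_left₀ (by positivity) h3 2
    nlinarith [sq_nonneg t, sq_nonneg (sq u), mul_nonneg (sq_nonneg t) hu,
      mul_nonneg (sq_nonneg t) (sq_nonneg (sq u))]
  have h5 := h1 (t • u) h2
  rw [sq_sm] at h5
  simp only [Prod.smul_fst, Prod.smul_snd, smul_eq_mul] at h5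
  have e : f (z + t • u) - f z - t * (p * u.1 + s * u.2) =
      (f (z + t • u) - f z - (p * (t * u.1) + s * (t * u.2) +
        (a * (t * u.1) ^ 2 + 2 * b * (t * u.1) * (t * u.2) + c * (t * u.2) ^ 2) / 2)) +
      t ^ 2 * ((a * u.1 ^ 2 + 2 * b * u.1 * u.2 + c * u.2 ^ 2) / 2) := by
    ring
  rw [e]
  refine (abs_add_le _ _).trans ?_
  have h6 : |t ^ 2 * ((a * u.1 ^ 2 + 2 * b * u.1 * u.2 + c * u.2 ^ 2) / 2)| =
      t ^ 2 * |(a * u.1 ^ 2 + 2 * b * u.1 * u.2 + c * u.2 ^ 2) / 2| := by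
    rw [abs_mul, abs_of_nonneg (sq_nonneg t)]
  rw [h6]
  linarith

private theorem conv_out {ψ : ℝ → ℝ} (hψ : ConvexOn ℝ univ ψ) {m r : ℝ} (hr : 0 < r)
    (h1 : ψ m ≤ ψ (m + r)) (h2 : ψ m ≤ ψ (m - r)) {ξ : ℝ} (hξ : r ≤ |ξ - m|) :
    ψ (m + r) ≤ ψ ξ ∨ ψ (m - r) ≤ ψ ξ := by
  rcases le_total 0 (ξ - m) with h | h
  · left
    rw [abs_of_nonneg h] at hξ
    have hpos : 0 < ξ - m := hr.trans_le hξ
    obtain ⟨θ, hθ⟩ : ∃ θ : ℝ, θ = r / (ξ - m) := ⟨_, rfl⟩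
    have hθ0 : 0 < θ := by rw [hθ]; positivity
    have hθ1 : θ ≤ 1 := by rw [hθ, div_le_one hpos]; exact hξ
    have h3 := hψ.2 (mem_univ m) (mem_univ ξ) (sub_nonneg.2 hθ1) hθ0.le (by ring)
    simp only [smul_eq_mul] at h3
    have e : (1 - θ) * m + θ * ξ = m + r := by
      have : θ * (ξ - m) = r := by rw [hθ]; field_simp
      linarith
    rw [e] at h3
    have h4 : θ * ψ (m + r) ≤ θ * ψ ξ := by nlinarith
    exact le_of_mul_le_mul_left h4 hθ0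
  · right
    rw [abs_of_nonpos h] at hξ
    have hpos : 0 < m - ξ := by linarith
    obtain ⟨θ, hθ⟩ : ∃ θ : ℝ, θ = r / (m - ξ) := ⟨_, rfl⟩
    have hθ0 : 0 < θ := by rw [hθ]; positivity
    have hθ1 : θ ≤ 1 := by rw [hθ, div_le_one hpos]; linarith
    have h3 := hψ.2 (mem_univ m) (mem_univ ξ) (sub_nonneg.2 hθ1) hθ0.le (by ring)
    simp only [smul_eq_mul] at h3
    have e : (1 - θ) * m + θ * ξ = m - r := by
      have : θ * (m - ξ) = r := by rw [hθ]; field_simp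
      linarith
    rw [e] at h3
    have h4 : θ * ψ (m - r) ≤ θ * ψ ξ := by nlinarith
    exact le_of_mul_le_mul_left h4 hθ0

private theorem conv_psi {f : ℝ × ℝ → ℝ} (hf : ConvexOn ℝ univ f) (x t k : ℝ) :
    ConvexOn ℝ univ fun ξ : ℝ => f (x + ξ, t) - k * (x + ξ) := by
  refine ⟨convex_univ, fun u _ w _ α β hα hβ hαβ => ?_⟩
  have h := hf.2 (mem_univ (x + u, t)) (mem_univ (x + w, t)) hα hβ hαβ
  have e : α • ((x + u, t) : ℝ × ℝ) + β • ((x + w, t) : ℝ × ℝ) = (x + (α * u + β * w), t) := by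
    ext
    · simp only [Prod.fst_add, Prod.smul_fst, smul_eq_mul]
      linear_combination x * hαβ
    · simp only [Prod.snd_add, Prod.smul_snd, smul_eq_mul]
      linear_combination t * hαβ
  rw [e] at h
  simp only [smul_eq_mul] at h ⊢
  have e2 : α * (f (x + u, t) - k * (x + u)) + β * (f (x + w, t) - k * (x + w)) =
      (α * f (x + u, t) + β * f (x + w, t)) - k * (x + (α * u + β * w)) := by
    linear_combination (-k * x) * hαβ
  rw [e2]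
  linarith

private theorem leg_min {f : ℝ × ℝ → ℝ} (hf : ConvexOn ℝ univ f) {z : ℝ × ℝ}
    {p s a b c : ℝ} (h : ExpAt f z p s a b c) (ha : 0 < a) :
    ∀ x, x ≠ z.1 → f z - p * z.1 < f (x, z.2) - p * x := by
  obtain ⟨δ, hδ, h1⟩ := h (a / 4) (by positivity)
  have hin : ∀ ξ : ℝ, ξ ≠ 0 → |ξ| ≤ δ →
      f z - p * z.1 < f (z.1 + ξ, z.2) - p * (z.1 + ξ) := by
    intro ξ hξ hle
    have h2 : sq ((ξ, 0) : ℝ × ℝ) ≤ δ ^ 2 := by
      unfold sq
      have := pow_le_pow_left₀ (abs_nonneg ξ) hle 2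
      rw [sq_abs] at this
      simpa using this
    have h3 := h1 (ξ, 0) h2
    have e : z + ((ξ, 0) : ℝ × ℝ) = (z.1 + ξ, z.2) := by
      ext <;> simp
    rw [e] at h3
    have h4 := (abs_le.1 h3).1
    have e2 : sq ((ξ, 0) : ℝ × ℝ) = ξ ^ 2 := by simp [sq]
    rw [e2] at h4
    simp only [mul_zero, add_zero] at h4
    have h5 : 0 < ξ ^ 2 := by positivity
    nlinarith
  intro x hx
  have hξ : x - z.1 ≠ 0 := sub_ne_zero.2 hx
  have ex : z.1 + (x - z.1) = x := by ring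
  by_cases hc : |x - z.1| ≤ δ
  · have := hin _ hξ hc
    rwa [ex] at this
  · have hψ := conv_psi hf z.1 z.2 p
    have p1 := hin δ hδ.ne' (by rw [abs_of_pos hδ])
    have p2 := hin (-δ) (neg_ne_zero.2 hδ.ne') (by rw [abs_neg, abs_of_pos hδ])
    have e0 : f (z.1 + 0, z.2) - p * (z.1 + 0) = f z - p * z.1 := by
      rw [add_zero]
    have h5 := conv_out hψ (m := 0) hδ
      (by simp only [zero_add]; rw [e0]; exact p1.le)
      (by simp only [zero_sub]; rw [e0]; exact p2.le) (ξ := x - z.1)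
      (by rw [sub_zero]; exact (not_le.1 hc).le)
    simp only [zero_add, zero_sub] at h5
    rw [ex] at h5
    rcases h5 with h5 | h5
    · exact p1.trans_le h5
    · exact p2.trans_le h5

private theorem leg_core {f : ℝ × ℝ → ℝ} (hf : ConvexOn ℝ univ f) (hL : Low f) {z : ℝ × ℝ}
    {p s a b c a0 B K ε δ : ℝ} (ha0 : 0 < a0) (ha : a0 ≤ a) (hB : |b| ≤ B)
    (hK : K = (1 + B) / a0) (hε : 0 < ε)
    (hε2 : ε * (((K + 1) ^ 2 + 1) + (K ^ 2 + 1)) ≤ a0 / 2)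
    (h : ∀ v : ℝ × ℝ, sq v ≤ δ ^ 2 → |f (z + v) - f z - (p * v.1 + s * v.2 +
      (a * v.1 ^ 2 + 2 * b * v.1 * v.2 + c * v.2 ^ 2) / 2)| ≤ ε * sq v)
    (hmin : ∀ x, f z - p * z.1 ≤ f (x, z.2) - p * x)
    {v : ℝ × ℝ} (hv : ((K + 1) ^ 2 + 1) * sq v ≤ δ ^ 2) :
    |PL f ((p, z.2) + v) - (f z - p * z.1) - ((-z.1) * v.1 + s * v.2 +
      ((-1 / a) * v.1 ^ 2 + 2 * (b / a) * v.1 * v.2 + (c - b ^ 2 / a) * v.2 ^ 2) / 2)| ≤
      ε * ((K + 1) ^ 2 + 1) * sq v := by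
  have hapos : 0 < a := ha0.trans_le ha
  have hB0 : 0 ≤ B := (abs_nonneg b).trans hB
  have hK0 : 0 ≤ K := by rw [hK]; positivity
  obtain ⟨h1, τ⟩ := v
  obtain ⟨x0, t0⟩ := z
  simp only at hmin h hv ⊢
  obtain ⟨R, hR⟩ : ∃ R : ℝ, R = Real.sqrt (sq (h1, τ)) := ⟨_, rfl⟩
  have hR0 : 0 ≤ R := by rw [hR]; exact Real.sqrt_nonneg _
  have hR2 : R ^ 2 = h1 ^ 2 + τ ^ 2 := by
    rw [hR, Real.sq_sqrt (sq_nn _)]
    rfl
  have esq : sq ((h1, τ) : ℝ × ℝ) = R ^ 2 := by rw [hR2]; rfl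
  rw [esq] at hv ⊢
  have hhR : |h1| ≤ R := abs_le_of_sq_le_sq (by nlinarith [sq_nonneg τ]) hR0
  have hτR : |τ| ≤ R := abs_le_of_sq_le_sq (by nlinarith [sq_nonneg h1]) hR0
  obtain ⟨T, hT⟩ : ∃ T : ℝ, T = (-x0) * h1 + s * τ +
      ((-1 / a) * h1 ^ 2 + 2 * (b / a) * h1 * τ + (c - b ^ 2 / a) * τ ^ 2) / 2 := ⟨_, rfl⟩
  rw [← hT]
  obtain ⟨F0, hF0⟩ : ∃ F0 : ℝ, F0 = f (x0, t0) - p * x0 := ⟨_, rfl⟩
  rw [← hF0]
  rw [← hF0] at hmin
  obtain ⟨ψ, hψd⟩ : ∃ ψ : ℝ → ℝ, ψ = fun ξ => f (x0 + ξ, t0 + τ) - (p + h1) * (x0 + ξ) :=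
    ⟨_, rfl⟩
  have hψc : ConvexOn ℝ univ ψ := by rw [hψd]; exact conv_psi hf x0 (t0 + τ) (p + h1)
  obtain ⟨m, hm⟩ : ∃ m : ℝ, m = (h1 - b * τ) / a := ⟨_, rfl⟩
  have hψQ : ∀ ξ : ℝ, ξ ^ 2 + τ ^ 2 ≤ δ ^ 2 →
      |ψ ξ - (F0 + T + a * (ξ - m) ^ 2 / 2)| ≤ ε * (ξ ^ 2 + τ ^ 2) := by
    intro ξ hξ
    have h2 := h (ξ, τ) hξ
    have e1 : ((x0, t0) : ℝ × ℝ) + (ξ, τ) = (x0 + ξ, t0 + τ) := rfl
    rw [e1] at h2
    have e2 : ψ ξ - (F0 + T + a * (ξ - m) ^ 2 / 2) = f (x0 + ξ, t0 + τ) - f (x0, t0) -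
        (p * ξ + s * τ + (a * ξ ^ 2 + 2 * b * ξ * τ + c * τ ^ 2) / 2) := by
      rw [hψd, hF0, hT, hm]
      simp only
      field_simp
      ring
    rw [e2]
    exact h2
  have hmK : |m| ≤ K * R := by
    rw [hm, abs_div, abs_of_pos hapos, div_le_iff₀ hapos]
    have h2 : |h1 - b * τ| ≤ (1 + B) * R := by
      calc |h1 - b * τ| ≤ |h1| + |b * τ| := abs_sub _ _
        _ = |h1| + |b| * |τ| := by rw [abs_mul]
        _ ≤ R + B * R := add_le_add hhR (mul_le_mul hB hτR (abs_nonneg _) hB0)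
        _ = (1 + B) * R := by ring
    refine h2.trans ?_
    have h3 : (1 + B) = K * a0 := by rw [hK]; field_simp
    rw [h3]
    have h4 : K * a0 * R ≤ K * a * R :=
      mul_le_mul_of_nonneg_right (mul_le_mul_of_nonneg_left ha hK0) hR0
    linarith
  have hτ2 : τ ^ 2 ≤ R ^ 2 := by nlinarith [sq_nonneg h1]
  have hm2 : m ^ 2 ≤ K ^ 2 * R ^ 2 := by
    have := pow_le_pow_left₀ (abs_nonneg m) hmK 2
    rw [sq_abs, mul_pow] at this
    exact this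
  have hRR : 0 ≤ R ^ 2 := sq_nonneg R
  have hKK : K ^ 2 + 1 ≤ (K + 1) ^ 2 + 1 := by nlinarith
  have hψm : ψ m ≤ F0 + T + ε * (K ^ 2 + 1) * R ^ 2 := by
    have h2 := hψQ m (by
      have : (K ^ 2 + 1) * R ^ 2 ≤ ((K + 1) ^ 2 + 1) * R ^ 2 :=
        mul_le_mul_of_nonneg_right hKK hRR
      nlinarith)
    have h3 := (abs_le.1 h2).2
    have h4 : ε * (m ^ 2 + τ ^ 2) ≤ ε * ((K ^ 2 + 1) * R ^ 2) :=
      mul_le_mul_of_nonneg_left (by nlinarith) hε.le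
    have h5 : a * (m - m) ^ 2 / 2 = 0 := by ring
    rw [h5] at h3
    linarith
  have hin : ∀ ξ : ℝ, |ξ - m| ≤ R →
      F0 + T + a * (ξ - m) ^ 2 / 2 - ε * ((K + 1) ^ 2 + 1) * R ^ 2 ≤ ψ ξ := by
    intro ξ hξ
    have h2 : |ξ| ≤ (K + 1) * R := by
      calc |ξ| = |(ξ - m) + m| := by ring_nf
        _ ≤ |ξ - m| + |m| := abs_add_le _ _
        _ ≤ R + K * R := add_le_add hξ hmK
        _ = (K + 1) * R := by ring
    have h3 : ξ ^ 2 ≤ (K + 1) ^ 2 * R ^ 2 := by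
      have := pow_le_pow_left₀ (abs_nonneg ξ) h2 2
      rw [sq_abs, mul_pow] at this
      exact this
    have h4 := hψQ ξ (by nlinarith)
    have h5 := (abs_le.1 h4).1
    have h6 : ε * (ξ ^ 2 + τ ^ 2) ≤ ε * (((K + 1) ^ 2 + 1) * R ^ 2) :=
      mul_le_mul_of_nonneg_left (by nlinarith) hε.le
    linarith
  have hlow : ∀ ξ : ℝ, F0 + T - ε * ((K + 1) ^ 2 + 1) * R ^ 2 ≤ ψ ξ := by
    intro ξ
    rcases eq_or_lt_of_le hR0 with hR00 | hRpos
    · have e1 : h1 ^ 2 + τ ^ 2 = 0 := by rw [← hR2, ← hR00]; ring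
      have e2 : h1 = 0 := by nlinarith [sq_nonneg h1, sq_nonneg τ]
      have e3 : τ = 0 := by nlinarith [sq_nonneg h1, sq_nonneg τ]
      have h2 := hmin (x0 + ξ)
      have e4 : ψ ξ = f (x0 + ξ, t0) - p * (x0 + ξ) := by
        rw [hψd, e2, e3]
        simp
      have e5 : T = 0 := by rw [hT, e2, e3]; ring
      rw [e4, e5, ← hR00]
      linarith
    · by_cases hc : |ξ - m| ≤ R
      · have h2 := hin ξ hc
        have h3 : 0 ≤ a * (ξ - m) ^ 2 / 2 := by positivity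
        linarith
      · have q1 := hin (m + R) (by rw [add_sub_cancel_left, abs_of_nonneg hR0])
        have q2 := hin (m - R) (by
          have : m - R - m = -R := by ring
          rw [this, abs_neg, abs_of_nonneg hR0])
        have e1 : (m + R - m) ^ 2 = R ^ 2 := by ring
        have e2 : (m - R - m) ^ 2 = R ^ 2 := by ring
        rw [e1] at q1
        rw [e2] at q2
        have h6 : ε * ((K + 1) ^ 2 + 1) * R ^ 2 + ε * (K ^ 2 + 1) * R ^ 2 ≤ a * R ^ 2 / 2 := by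
          have h7 : ε * (((K + 1) ^ 2 + 1) + (K ^ 2 + 1)) * R ^ 2 ≤ a0 / 2 * R ^ 2 :=
            mul_le_mul_of_nonneg_right hε2 hRR
          have h8 : a0 / 2 * R ^ 2 ≤ a / 2 * R ^ 2 :=
            mul_le_mul_of_nonneg_right (by linarith) hRR
          linarith
        have h9 : 0 ≤ ε * (K ^ 2 + 1) * R ^ 2 := by positivity
        have h10 : 0 ≤ a * R ^ 2 / 2 := by positivity
        rcases conv_out hψc hRpos (by linarith) (by linarith) (not_le.1 hc).le with h5 | h5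
        · linarith
        · linarith
  have hup : PL f ((p, t0) + (h1, τ)) ≤ ψ m := by
    have h2 := pl_le f hL ((p, t0) + (h1, τ)) (x0 + m)
    rw [hψd]
    exact h2
  have hlo : F0 + T - ε * ((K + 1) ^ 2 + 1) * R ^ 2 ≤ PL f ((p, t0) + (h1, τ)) := by
    refine le_pl f _ _ fun x => ?_
    have h2 := hlow (x - x0)
    rw [hψd] at h2
    simp only at h2
    have e : x0 + (x - x0) = x := by ring
    rw [e] at h2
    exact h2
  have h8 : ε * (K ^ 2 + 1) * R ^ 2 ≤ ε * ((K + 1) ^ 2 + 1) * R ^ 2 :=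
    mul_le_mul_of_nonneg_right (mul_le_mul_of_nonneg_left hKK hε.le) hRR
  rw [abs_le]
  constructor
  · linarith
  · linarith

/-- the choice of `ε` and `δ` for a given error -/
private theorem leg_eps {K a0 ε' : ℝ} (ha0 : 0 < a0) (hε' : 0 < ε') :
    ∃ ε : ℝ, 0 < ε ∧ ε * (((K + 1) ^ 2 + 1) + (K ^ 2 + 1)) ≤ a0 / 2 ∧
      ε * ((K + 1) ^ 2 + 1) ≤ ε' := by
  have c1 : 0 < (K + 1) ^ 2 + 1 := by positivity
  have c2 : 0 < ((K + 1) ^ 2 + 1) + (K ^ 2 + 1) := by positivity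
  refine ⟨min (ε' / ((K + 1) ^ 2 + 1)) (a0 / 2 / (((K + 1) ^ 2 + 1) + (K ^ 2 + 1))),
    lt_min (by positivity) (by positivity), ?_, ?_⟩
  · rw [← le_div_iff₀ c2]
    exact min_le_right _ _
  · rw [← le_div_iff₀ c1]
    exact min_le_left _ _

private theorem leg_del {K δ S : ℝ} (hS : S ≤ (δ / ((K + 1) ^ 2 + 1)) ^ 2) :
    ((K + 1) ^ 2 + 1) * S ≤ δ ^ 2 := by
  have c1 : 1 ≤ (K + 1) ^ 2 + 1 := by nlinarith [sq_nonneg (K + 1)]
  have c0 : 0 < (K + 1) ^ 2 + 1 := by linarith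
  have h1 : ((K + 1) ^ 2 + 1) * S ≤ ((K + 1) ^ 2 + 1) * (δ / ((K + 1) ^ 2 + 1)) ^ 2 :=
    mul_le_mul_of_nonneg_left hS c0.le
  refine h1.trans ?_
  have e : ((K + 1) ^ 2 + 1) * (δ / ((K + 1) ^ 2 + 1)) ^ 2 = δ ^ 2 / ((K + 1) ^ 2 + 1) := by
    field_simp
  rw [e, div_le_iff₀ c0]
  nlinarith [sq_nonneg δ]

theorem exp_pl_at (f : ℝ × ℝ → ℝ) (hf : ConvexOn ℝ univ f) (hg : Gr f) (z : ℝ × ℝ)
    (p s a b c : ℝ) (h : ExpAt f z p s a b c) (ha : 0 < a) :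
    PL f (p, z.2) = f z - p * z.1 ∧
      (∀ x, x ≠ z.1 → f z - p * z.1 < f (x, z.2) - p * x) ∧
      ExpAt (PL f) (p, z.2) (-z.1) s (-1 / a) (b / a) (c - b ^ 2 / a) := by
  have hL := low_of_gr f hg
  have hmin := leg_min hf h ha
  have hmin' : ∀ x, f z - p * z.1 ≤ f (x, z.2) - p * x := by
    intro x
    by_cases hx : x = z.1
    · subst hx
      exact le_rfl
    · exact (hmin x hx).le
  have h1 : PL f (p, z.2) = f z - p * z.1 :=
    le_antisymm (pl_le f hL (p, z.2) z.1) (le_pl f (p, z.2) _ hmin')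
  refine ⟨h1, hmin, ?_⟩
  intro ε' hε'
  obtain ⟨K, hK⟩ : ∃ K : ℝ, K = (1 + |b|) / a := ⟨_, rfl⟩
  obtain ⟨ε, hε, hε2, hε3⟩ := leg_eps (K := K) ha hε'
  obtain ⟨δ, hδ, h2⟩ := h ε hε
  refine ⟨δ / ((K + 1) ^ 2 + 1), by positivity, fun v hv => ?_⟩
  rw [h1]
  refine (leg_core hf hL ha le_rfl le_rfl hK hε hε2 h2 hmin' (leg_del hv)).trans ?_
  exact mul_le_mul_of_nonneg_right hε3 (sq_nn v)

theorem exp_pl_unif (f : ℝ × ℝ → ℝ) (hf : ConvexOn ℝ univ f) (hg : Gr f) (K : Set (ℝ × ℝ))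
    (hK : IsCompact K) (J : Jets) (hE : Exp2 f K J) (ha : ∀ z ∈ K, 0 < J.a z) :
    InjOn (Phi J) K ∧ ∃ JW : Jets, Exp2 (PL f) (Phi J '' K) JW ∧
      ∀ z ∈ K, JW.p (Phi J z) = -z.1 ∧ JW.s (Phi J z) = J.s z ∧ JW.a (Phi J z) = -1 / J.a z ∧
        JW.b (Phi J z) = J.b z / J.a z ∧ JW.c (Phi J z) = J.c z - J.b z ^ 2 / J.a z := by
  have hL := low_of_gr f hg
  have hAt : ∀ z ∈ K, ExpAt f z (J.p z) (J.s z) (J.a z) (J.b z) (J.c z) := by
    intro z hz ε hε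
    obtain ⟨δ, hδ, h1⟩ := hE.ex ε hε
    exact ⟨δ, hδ, fun v hv => h1 z hz v hv⟩
  have hmin : ∀ z ∈ K, ∀ x, x ≠ z.1 → f z - J.p z * z.1 < f (x, z.2) - J.p z * x :=
    fun z hz => leg_min hf (hAt z hz) (ha z hz)
  have hinj : InjOn (Phi J) K := by
    intro z hz z' hz' hzz
    have e1 : J.p z = J.p z' := (Prod.ext_iff.1 hzz).1
    have e2 : z.2 = z'.2 := (Prod.ext_iff.1 hzz).2
    by_contra hne
    have e3 : z.1 ≠ z'.1 := fun h => hne (Prod.ext h e2)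
    have h1 := hmin z hz z'.1 (Ne.symm e3)
    have h2 := hmin z' hz' z.1 e3
    have e4 : ((z'.1, z.2) : ℝ × ℝ) = z' := by rw [e2]
    have e5 : ((z.1, z'.2) : ℝ × ℝ) = z := by rw [← e2]
    rw [e4] at h1
    rw [e5, ← e1] at h2
    linarith
  refine ⟨hinj, ?_⟩
  obtain ⟨σ, hσ⟩ : ∃ σ : ℝ × ℝ → ℝ × ℝ, ∀ z ∈ K, σ (Phi J z) = z :=
    ⟨Function.invFunOn (Phi J) K, fun z hz => hinj.leftInvOn_invFunOn hz⟩
  have hΦc : ContinuousOn (Phi J) K := hE.cp.prodMk continuousOn_snd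
  have hσm : MapsTo σ (Phi J '' K) K := by
    rintro _ ⟨z, hz, rfl⟩
    rw [hσ z hz]
    exact hz
  have hσc : ContinuousOn σ (Phi J '' K) := by
    rw [continuousOn_iff_isClosed]
    intro C hC
    refine ⟨Phi J '' (K ∩ C), ?_, ?_⟩
    · exact ((hK.inter_right hC).image_of_continuousOn (hΦc.mono inter_subset_left)).isClosed
    · ext y
      constructor
      · rintro ⟨hy, ⟨z, hz, rfl⟩⟩
        rw [mem_preimage, hσ z hz] at hy
        exact ⟨⟨z, ⟨hz, hy⟩, rfl⟩, ⟨z, hz, rfl⟩⟩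
      · rintro ⟨⟨z, ⟨hz, hzC⟩, rfl⟩, h2⟩
        refine ⟨?_, h2⟩
        rw [mem_preimage, hσ z hz]
        exact hzC
  have hne : ∀ y ∈ Phi J '' K, J.a (σ y) ≠ 0 := fun y hy => (ha _ (hσm hy)).ne'
  have cA : ContinuousOn (fun y => J.a (σ y)) (Phi J '' K) := hE.ca.comp hσc hσm
  have cB : ContinuousOn (fun y => J.b (σ y)) (Phi J '' K) := hE.cb.comp hσc hσm
  have cC : ContinuousOn (fun y => J.c (σ y)) (Phi J '' K) := hE.cc.comp hσc hσm
  refine ⟨⟨fun y => -(σ y).1, fun y => J.s (σ y), fun y => -1 / J.a (σ y),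
    fun y => J.b (σ y) / J.a (σ y), fun y => J.c (σ y) - J.b (σ y) ^ 2 / J.a (σ y)⟩,
    ⟨?_, ?_, ?_, ?_, ?_, ?_⟩, ?_⟩
  · exact (continuous_fst.comp_continuousOn hσc).neg
  · exact hE.cs.comp hσc hσm
  · exact continuousOn_const.div cA hne
  · exact cB.div cA hne
  · exact cC.sub ((cB.pow 2).div cA hne)
  · intro ε' hε'
    obtain ⟨a0, ha0, haK⟩ : ∃ a0 : ℝ, 0 < a0 ∧ ∀ z ∈ K, a0 ≤ J.a z := by
      rcases K.eq_empty_or_nonempty with h0 | h0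
      · exact ⟨1, one_pos, fun z hz => by rw [h0] at hz; exact absurd hz (notMem_empty z)⟩
      · obtain ⟨z, hz, hmz⟩ := hK.exists_isMinOn h0 hE.ca
        exact ⟨J.a z, ha z hz, fun w hw => hmz hw⟩
    obtain ⟨B, hB⟩ := hK.exists_bound_of_continuousOn hE.cb
    obtain ⟨Q, hQ⟩ : ∃ Q : ℝ, Q = (1 + B) / a0 := ⟨_, rfl⟩
    obtain ⟨ε, hε, hε2, hε3⟩ := leg_eps (K := Q) ha0 hε'
    obtain ⟨δ, hδ, h2⟩ := hE.ex ε hε
    refine ⟨δ / ((Q + 1) ^ 2 + 1), by positivity, ?_⟩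
    rintro _ ⟨z, hz, rfl⟩ v hv
    have hmin' : ∀ x, f z - J.p z * z.1 ≤ f (x, z.2) - J.p z * x := by
      intro x
      by_cases hx : x = z.1
      · subst hx
        exact le_rfl
      · exact (hmin z hz x hx).le
    have h1 : PL f (Phi J z) = f z - J.p z * z.1 :=
      le_antisymm (pl_le f hL (Phi J z) z.1) (le_pl f (Phi J z) _ hmin')
    rw [h1]
    simp only [Jets.q]
    rw [hσ z hz]
    refine (leg_core hf hL ha0 (haK z hz) (by
      have := hB z hz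
      rwa [Real.norm_eq_abs] at this) hQ hε hε2 (fun w hw => h2 z hz w hw) hmin'
      (leg_del hv)).trans ?_
    exact mul_le_mul_of_nonneg_right hε3 (sq_nn v)
  · intro z hz
    simp only [hσ z hz]
    exact ⟨trivial, trivial, trivial, trivial, trivial⟩

/-- Tangent data of a convex function at a point with an expansion. -/
theorem exp_tangent (f : ℝ × ℝ → ℝ) (hf : ConvexOn ℝ univ f) (z : ℝ × ℝ) (p s a b c : ℝ)
    (h : ExpAt f z p s a b c) :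
    (∀ z' : ℝ × ℝ, f z + p * (z'.1 - z.1) + s * (z'.2 - z.2) ≤ f z') ∧
      ∀ p' s' : ℝ, (∃ r : ℝ, 0 < r ∧ ∀ v : ℝ × ℝ, sq v ≤ r ^ 2 → f z + p' * v.1 + s' * v.2 ≤ f (z + v)) →
        p' = p ∧ s' = s := by
  constructor
  · intro z'
    obtain ⟨C, δ, hδ, h1⟩ := exp_dir h (z' - z)
    have h2 : (p * (z'.1 - z.1) + s * (z'.2 - z.2)) - (f z' - f z) ≤ 0 := by
      refine le_of_small (C := C) (lt_min hδ one_pos) fun t ht htδ => ?_
      have h3 := h1 t ht (htδ.trans (min_le_left _ _))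
      have ht1 : t ≤ 1 := htδ.trans (min_le_right _ _)
      have h4 := hf.2 (mem_univ z) (mem_univ z') (sub_nonneg.2 ht1) ht.le (by ring)
      have e : (1 - t) • z + t • z' = z + t • (z' - z) := by
        rw [sub_smul, one_smul, smul_sub]
        abel
      rw [e] at h4
      simp only [smul_eq_mul] at h4
      have h5 := (abs_le.1 h3).1
      simp only [Prod.fst_sub, Prod.snd_sub] at h5
      have h6 : t * ((p * (z'.1 - z.1) + s * (z'.2 - z.2)) - (f z' - f z)) ≤ t * (C * t) := by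
        nlinarith
      exact le_of_mul_le_mul_left h6 ht
    linarith
  · rintro p' s' ⟨r, hr, h1⟩
    have key : ∀ u : ℝ × ℝ, sq u ≤ 1 → (p' * u.1 + s' * u.2) - (p * u.1 + s * u.2) ≤ 0 := by
      intro u hu
      obtain ⟨C, δ, hδ, h2⟩ := exp_dir h u
      refine le_of_small (C := C) (lt_min hδ hr) fun t ht htδ => ?_
      have h3 := h2 t ht (htδ.trans (min_le_left _ _))
      have h4 := h1 (t • u) (by
        rw [sq_sm]
        have h5 : t ^ 2 ≤ r ^ 2 := pow_le_pow_left₀ ht.le (htδ.trans (min_le_right _ _)) 2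
        have h6 := sq_nn u
        nlinarith [sq_nonneg t])
      simp only [Prod.smul_fst, Prod.smul_snd, smul_eq_mul] at h4
      have h5 := (abs_le.1 h3).2
      have h6 : t * ((p' * u.1 + s' * u.2) - (p * u.1 + s * u.2)) ≤ t * (C * t) := by
        nlinarith
      exact le_of_mul_le_mul_left h6 ht
    have k1 := key (1, 0) (by norm_num [sq])
    have k2 := key (-1, 0) (by norm_num [sq])
    have k3 := key (0, 1) (by norm_num [sq])
    have k4 := key (0, -1) (by norm_num [sq])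
    simp only at k1 k2 k3 k4
    exact ⟨by linarith, by linarith⟩

/-- Only in the first variable. -/
theorem exp_tangent_x (f : ℝ × ℝ → ℝ) (z : ℝ × ℝ) (p s a b c : ℝ)
    (h : ExpAt f z p s a b c) (p' : ℝ) (h' : ∀ x, f z + p' * (x - z.1) ≤ f (x, z.2)) : p' = p := by
  have key : ∀ σ : ℝ, p' * σ - p * σ ≤ 0 := by
    intro σ
    obtain ⟨C, δ, hδ, h2⟩ := exp_dir h (σ, 0)
    refine le_of_small (C := C) hδ fun t ht htδ => ?_
    have h3 := h2 t ht htδ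
    have h4 := h' (z.1 + t * σ)
    have e : z + t • ((σ, 0) : ℝ × ℝ) = (z.1 + t * σ, z.2) := by
      ext <;> simp
    rw [e] at h3
    have h5 := (abs_le.1 h3).2
    simp only [mul_zero, add_zero] at h5
    have h6 : t * (p' * σ - p * σ) ≤ t * (C * t) := by
      nlinarith
    exact le_of_mul_le_mul_left h6 ht
  have k1 := key 1
  have k2 := key (-1)
  linarith

end Pool.Agent.MP_4eca41
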